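import Pool.Agent.Helper85.LN2.Goals
import Pool.Agent.Helper61.LN.PCHK

/-!
# PCHK2: the check of a second certificate is primitive recursive (project LN2)
-/

namespace Pool.Agent.Helper40.LN2

open Pool.Agent.Helper85.LN Pool.Agent.Helper85.LN2 Pool.Agent.Helper61.LN

universe u v

section Main

variable {α : Type u} [Primcodable α]

theorem kapCp {s h s' : α → WC} (hs : Primrec s) (hh : Primrec h) (hs' : Primrec s') :
    Primrec fun a => kapC (s a) (h a) (s' a) :=
  appp hs (appp hh (appp hs' (appp (iwCp hh) (appp (iwCp hs) (appp hh (appp (iwCp hs')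
    (iwCp hh)))))))

theorem StpSCp {m : α → ℕ} {R L : α → List WC} {w w' : α → WC} (hm : Primrec m)
    (hR : Primrec R) (hL : Primrec L) (hw : Primrec w) (hw' : Primrec w') :
    PrimrecPred fun a => StpSC (m a) (R a) (L a) (w a) (w' a) := by
  refine ex_lt (p := fun a i => (∃ r ∈ R a, w' a = (w a).take i ++ (r ++ (w a).drop i)) ∨
    (∃ q < m a, w' a = (w a).take i ++ ([(q, true), (q, false)] ++ (w a).drop i) ∨
      w' a = (w a).take i ++ ([(q, false), (q, true)] ++ (w a).drop i)) ∨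
    ∃ s ∈ L a, ∃ s' ∈ L a, ∃ j < (w' a).length + 1, ∃ n < (w' a).length + 1,
      w' a = (w a).take i ++ (kapC s (((w' a).drop j).take n) s' ++ (w a).drop i))
    (Primrec.succ.comp (Primrec.list_length.comp hw)) (PrimrecPred.or ?_ (PrimrecPred.or ?_ ?_))
  · refine ex_mem (f := fun q : α × ℕ => R q.1)
      (p := fun q r => w' q.1 = (w q.1).take q.2 ++ (r ++ (w q.1).drop q.2))
      (hR.comp Primrec.fst) ?_
    have h1 : Primrec fun p : (α × ℕ) × WC => w p.1.1 := hw.comp (Primrec.fst.comp Primrec.fst)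
    have h2 : Primrec fun p : (α × ℕ) × WC => w' p.1.1 := hw'.comp (Primrec.fst.comp Primrec.fst)
    have h3 : Primrec fun p : (α × ℕ) × WC => p.1.2 := Primrec.snd.comp Primrec.fst
    exact eqp h2 (appp (takep h1 h3) (appp Primrec.snd (dropp h1 h3)))
  · refine ex_lt (f := fun q : α × ℕ => m q.1)
      (p := fun a q => w' a.1 = (w a.1).take a.2 ++ ([(q, true), (q, false)] ++ (w a.1).drop a.2) ∨
      w' a.1 = (w a.1).take a.2 ++ ([(q, false), (q, true)] ++ (w a.1).drop a.2))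
      (hm.comp Primrec.fst) ?_
    have h1 : Primrec fun p : (α × ℕ) × ℕ => w p.1.1 := hw.comp (Primrec.fst.comp Primrec.fst)
    have h2 : Primrec fun p : (α × ℕ) × ℕ => w' p.1.1 := hw'.comp (Primrec.fst.comp Primrec.fst)
    have h3 : Primrec fun p : (α × ℕ) × ℕ => p.1.2 := Primrec.snd.comp Primrec.fst
    have h4 : ∀ b c : Bool, Primrec fun p : (α × ℕ) × ℕ => ([(p.2, b), (p.2, c)] : WC) :=
      fun b c => Primrec.list_cons.comp (Primrec.snd.pair (Primrec.const b))
        (Primrec.list_cons.comp (Primrec.snd.pair (Primrec.const c)) (Primrec.const []))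
    exact (eqp h2 (appp (takep h1 h3) (appp (h4 true false) (dropp h1 h3)))).or
      (eqp h2 (appp (takep h1 h3) (appp (h4 false true) (dropp h1 h3))))
  · refine ex_mem (f := fun q : α × ℕ => L q.1)
      (p := fun q s => ∃ s' ∈ L q.1, ∃ j < (w' q.1).length + 1, ∃ n < (w' q.1).length + 1,
        w' q.1 = (w q.1).take q.2 ++ (kapC s (((w' q.1).drop j).take n) s' ++ (w q.1).drop q.2))
      (hL.comp Primrec.fst) ?_
    refine ex_mem (f := fun q : (α × ℕ) × WC => L q.1.1)
      (p := fun q s' => ∃ j < (w' q.1.1).length + 1, ∃ n < (w' q.1.1).length + 1,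
        w' q.1.1 = (w q.1.1).take q.1.2 ++ (kapC q.2 (((w' q.1.1).drop j).take n) s' ++
          (w q.1.1).drop q.1.2))
      (hL.comp (Primrec.fst.comp Primrec.fst)) ?_
    refine ex_lt (f := fun q : ((α × ℕ) × WC) × WC => (w' q.1.1.1).length + 1)
      (p := fun q j => ∃ n < (w' q.1.1.1).length + 1,
        w' q.1.1.1 = (w q.1.1.1).take q.1.1.2 ++ (kapC q.1.2 (((w' q.1.1.1).drop j).take n) q.2 ++
          (w q.1.1.1).drop q.1.1.2))
      (Primrec.succ.comp (Primrec.list_length.comp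
        (hw'.comp (Primrec.fst.comp (Primrec.fst.comp Primrec.fst))))) ?_
    refine ex_lt (f := fun q : (((α × ℕ) × WC) × WC) × ℕ => (w' q.1.1.1.1).length + 1)
      (p := fun q n =>
        w' q.1.1.1.1 = (w q.1.1.1.1).take q.1.1.1.2 ++
          (kapC q.1.1.2 (((w' q.1.1.1.1).drop q.2).take n) q.1.2 ++
          (w q.1.1.1.1).drop q.1.1.1.2))
      (Primrec.succ.comp (Primrec.list_length.comp
        (hw'.comp (Primrec.fst.comp (Primrec.fst.comp (Primrec.fst.comp Primrec.fst)))))) ?_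
    have g1 : Primrec fun p : ((((α × ℕ) × WC) × WC) × ℕ) × ℕ => p.1.1.1 :=
      Primrec.fst.comp (Primrec.fst.comp Primrec.fst)
    have g2 : Primrec fun p : ((((α × ℕ) × WC) × WC) × ℕ) × ℕ => p.1.1.1.1 :=
      Primrec.fst.comp g1
    have g3 : Primrec fun p : ((((α × ℕ) × WC) × WC) × ℕ) × ℕ => p.1.1.1.1.1 :=
      Primrec.fst.comp g2
    have gi : Primrec fun p : ((((α × ℕ) × WC) × WC) × ℕ) × ℕ => p.1.1.1.1.2 :=
      Primrec.snd.comp g2
    have gs : Primrec fun p : ((((α × ℕ) × WC) × WC) × ℕ) × ℕ => p.1.1.1.2 :=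
      Primrec.snd.comp g1
    have gs' : Primrec fun p : ((((α × ℕ) × WC) × WC) × ℕ) × ℕ => p.1.1.2 :=
      Primrec.snd.comp (Primrec.fst.comp Primrec.fst)
    have gj : Primrec fun p : ((((α × ℕ) × WC) × WC) × ℕ) × ℕ => p.1.2 :=
      Primrec.snd.comp Primrec.fst
    have gn : Primrec fun p : ((((α × ℕ) × WC) × WC) × ℕ) × ℕ => p.2 := Primrec.snd
    have gw : Primrec fun p : ((((α × ℕ) × WC) × WC) × ℕ) × ℕ => w p.1.1.1.1.1 := hw.comp g3
    have gw' : Primrec fun p : ((((α × ℕ) × WC) × WC) × ℕ) × ℕ => w' p.1.1.1.1.1 := hw'.comp g3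
    exact eqp gw' (appp (takep gw gi) (appp (kapCp gs (takep (dropp gw' gj) gn) gs')
      (dropp gw gi)))

theorem ChainSCp {m : α → ℕ} {R L : α → List WC} {c : α → List WC} {w w' : α → WC}
    (hm : Primrec m) (hR : Primrec R) (hL : Primrec L) (hc : Primrec c)
    (hw : Primrec w) (hw' : Primrec w') :
    PrimrecPred fun a => ChainSC (m a) (R a) (L a) (c a) (w a) (w' a) := by
  have hl : Primrec fun a => (c a).length - 1 :=
    Primrec.nat_sub.comp (Primrec.list_length.comp hc) (Primrec.const 1)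
  refine (PrimrecPred.not (eqp hc (Primrec.const []))).and ((eqp (getDp [] hc (Primrec.const 0)) hw).and
    ((eqp (getDp [] hc hl) hw').and ((all_mem (p := fun a w => OkC (m a) w) hc
      (OkCp (hm.comp Primrec.fst) Primrec.snd)).and
      (all_lt (p := fun a i => StpSC (m a) (R a) (L a) ((c a).getD i []) ((c a).getD (i + 1) []) ∨
      StpSC (m a) (R a) (L a) ((c a).getD (i + 1) []) ((c a).getD i [])) hl ?_))))
  have h1 : Primrec fun q : α × ℕ => (c q.1).getD q.2 [] := getDp [] (hc.comp Primrec.fst) Primrec.snd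
  have h2 : Primrec fun q : α × ℕ => (c q.1).getD (q.2 + 1) [] :=
    getDp [] (hc.comp Primrec.fst) (Primrec.succ.comp Primrec.snd)
  exact (StpSCp (hm.comp Primrec.fst) (hR.comp Primrec.fst) (hL.comp Primrec.fst) h1 h2).or
    (StpSCp (hm.comp Primrec.fst) (hR.comp Primrec.fst) (hL.comp Primrec.fst) h2 h1)

theorem EqvSCp {m : α → ℕ} {R L : α → List WC} {K : α → List (List WC)} {w w' : α → WC}
    (hm : Primrec m) (hR : Primrec R) (hL : Primrec L) (hK : Primrec K)
    (hw : Primrec w) (hw' : Primrec w') :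
    PrimrecPred fun a => EqvSC (m a) (R a) (L a) (K a) (w a) (w' a) :=
  ex_mem (p := fun a c => ChainSC (m a) (R a) (L a) c (w a) (w' a)) hK
    (ChainSCp (hm.comp Primrec.fst) (hR.comp Primrec.fst) (hL.comp Primrec.fst) Primrec.snd
      (hw.comp Primrec.fst) (hw'.comp Primrec.fst))

variable {T : α → Tab}

theorem Chk2Sp {m : α → ℕ} {k : α → ℕ} {R L Y : α → List WC} {K : α → List (List WC)}
    (hm : Primrec m) (hT : Primrec T) (hk : Primrec k) (hR : Primrec R) (hL : Primrec L)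
    (hY : Primrec Y) (hK : Primrec K) :
    PrimrecPred fun a => Chk2S (m a) (T a) (k a) (R a) (L a) (Y a) (K a) := by
  have h0 : Primrec fun p : (α × WC) × ℕ => p.1.1 := Primrec.fst.comp Primrec.fst
  have h1 : Primrec fun p : (α × WC) × ℕ => runC (T p.1.1) p.1.2 p.2 :=
    runCp (hT.comp h0) (Primrec.snd.comp Primrec.fst) Primrec.snd
  refine PrimrecPred.and ?_ ?_
  · refine all_mem (p := fun a r => ∀ z < k a, (runC (T a) r z).1 = z ∧
      EqvSC (m a) (R a) (L a) (K a) (runC (T a) r z).2 []) hR ?_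
    refine all_lt (p := fun (q : α × WC) z => (runC (T q.1) q.2 z).1 = z ∧
      EqvSC (m q.1) (R q.1) (L q.1) (K q.1) (runC (T q.1) q.2 z).2 []) (hk.comp Primrec.fst) ?_
    exact (eqp (Primrec.fst.comp h1) Primrec.snd).and
      (EqvSCp (hm.comp h0) (hR.comp h0) (hL.comp h0) (hK.comp h0) (Primrec.snd.comp h1)
        (Primrec.const []))
  · refine all_mem (p := fun a r => ∀ z < k a, (runC (T a) r z).1 = z ∧
      ∃ y ∈ Y a, EqvC (m a) (R a ++ L a) (K a) (runC (T a) r z).2 y) hL ?_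
    refine all_lt (p := fun (q : α × WC) z => (runC (T q.1) q.2 z).1 = z ∧
      ∃ y ∈ Y q.1, EqvC (m q.1) (R q.1 ++ L q.1) (K q.1) (runC (T q.1) q.2 z).2 y)
      (hk.comp Primrec.fst) ?_
    refine (eqp (Primrec.fst.comp h1) Primrec.snd).and ?_
    refine ex_mem (f := fun q : (α × WC) × ℕ => Y q.1.1)
      (p := fun q y => EqvC (m q.1.1) (R q.1.1 ++ L q.1.1) (K q.1.1)
        (runC (T q.1.1) q.1.2 q.2).2 y) (hY.comp h0) ?_
    have g0 : Primrec fun p : ((α × WC) × ℕ) × WC => p.1.1.1 := h0.comp Primrec.fst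
    exact EqvCp (hm.comp g0) (appp (hR.comp g0) (hL.comp g0)) (hK.comp g0)
      (Primrec.snd.comp (h1.comp Primrec.fst)) Primrec.snd

theorem ChkYp {m : α → ℕ} {R L Y : α → List WC} {K : α → List (List WC)}
    (hm : Primrec m) (hR : Primrec R) (hL : Primrec L)
    (hY : Primrec Y) (hK : Primrec K) :
    PrimrecPred fun a => ChkY (m a) (R a) (L a) (Y a) (K a) := by
  have h0 : Primrec fun p : (α × WC) × WC => p.1.1 := Primrec.fst.comp Primrec.fst
  have h1 : Primrec fun p : (α × WC) × WC => p.1.2 := Primrec.snd.comp Primrec.fst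
  have h2 : Primrec fun p : (α × WC) × WC => p.2 := Primrec.snd
  refine PrimrecPred.and ?_ (PrimrecPred.and ?_ ?_)
  · refine all_mem (p := fun a y => ∀ q < m a,
      (∃ y' ∈ Y a, EqvC (m a) (R a ++ L a) (K a) ([(q, true)] ++ (y ++ [(q, false)])) y') ∧
      ∃ y' ∈ Y a, EqvC (m a) (R a ++ L a) (K a) ([(q, false)] ++ (y ++ [(q, true)])) y') hY ?_
    refine all_lt (p := fun (a : α × WC) q =>
      (∃ y' ∈ Y a.1, EqvC (m a.1) (R a.1 ++ L a.1) (K a.1)
        ([(q, true)] ++ (a.2 ++ [(q, false)])) y') ∧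
      ∃ y' ∈ Y a.1, EqvC (m a.1) (R a.1 ++ L a.1) (K a.1)
        ([(q, false)] ++ (a.2 ++ [(q, true)])) y') (hm.comp Primrec.fst) ?_
    have k0 : Primrec fun p : (α × WC) × ℕ => p.1.1 := Primrec.fst.comp Primrec.fst
    have g0 : Primrec fun p : ((α × WC) × ℕ) × WC => p.1.1.1 := k0.comp Primrec.fst
    have g1 : Primrec fun p : ((α × WC) × ℕ) × WC => p.1.1.2 :=
      Primrec.snd.comp (Primrec.fst.comp Primrec.fst)
    have g2 : Primrec fun p : ((α × WC) × ℕ) × WC => p.1.2 := Primrec.snd.comp Primrec.fst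
    have g4 : ∀ b : Bool, Primrec fun p : ((α × WC) × ℕ) × WC => ([(p.1.2, b)] : WC) :=
      fun b => Primrec.list_cons.comp (g2.pair (Primrec.const b)) (Primrec.const [])
    refine PrimrecPred.and ?_ ?_
    · refine ex_mem (f := fun q : (α × WC) × ℕ => Y q.1.1)
        (p := fun q y' => EqvC (m q.1.1) (R q.1.1 ++ L q.1.1) (K q.1.1)
          ([(q.2, true)] ++ (q.1.2 ++ [(q.2, false)])) y') (hY.comp k0) ?_
      exact EqvCp (hm.comp g0) (appp (hR.comp g0) (hL.comp g0)) (hK.comp g0)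
        (appp (g4 true) (appp g1 (g4 false))) Primrec.snd
    · refine ex_mem (f := fun q : (α × WC) × ℕ => Y q.1.1)
        (p := fun q y' => EqvC (m q.1.1) (R q.1.1 ++ L q.1.1) (K q.1.1)
          ([(q.2, false)] ++ (q.1.2 ++ [(q.2, true)])) y') (hY.comp k0) ?_
      exact EqvCp (hm.comp g0) (appp (hR.comp g0) (hL.comp g0)) (hK.comp g0)
        (appp (g4 false) (appp g1 (g4 true))) Primrec.snd
  · refine all_mem (p := fun a y => ∀ y' ∈ Y a,
      EqvSC (m a) (R a) (L a) (K a) (y ++ y') (y' ++ y)) hY ?_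
    refine all_mem (p := fun (a : α × WC) y' =>
      EqvSC (m a.1) (R a.1) (L a.1) (K a.1) (a.2 ++ y') (y' ++ a.2)) (hY.comp Primrec.fst) ?_
    exact EqvSCp (hm.comp h0) (hR.comp h0) (hL.comp h0) (hK.comp h0) (appp h1 h2) (appp h2 h1)
  · refine all_mem (p := fun a y => ∀ y' ∈ L a,
      EqvSC (m a) (R a) (L a) (K a) (y ++ y') (y' ++ y)) hY ?_
    refine all_mem (p := fun (a : α × WC) y' =>
      EqvSC (m a.1) (R a.1) (L a.1) (K a.1) (a.2 ++ y') (y' ++ a.2)) (hL.comp Primrec.fst) ?_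
    exact EqvSCp (hm.comp h0) (hR.comp h0) (hL.comp h0) (hK.comp h0) (appp h1 h2) (appp h2 h1)

theorem Chk3Sp {x : α → AC} {R L : α → List WC} {B : α → Tab} {t : α → List ℕ}
    {l : α → List WC} {K : α → List (List WC)} (hx : Primrec x) (hR : Primrec R)
    (hL : Primrec L) (hB : Primrec B)
    (ht : Primrec t) (hl : Primrec l) (hK : Primrec K) :
    PrimrecPred fun a => Chk3S (x a) (R a) (L a) (B a) (t a) (l a) (K a) := by
  refine all_lt (p := fun a q => ∀ b < (x a).1,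
    ltC (B a) (trC (x a) q b, true) ((t a).getD b 0) = (t a).getD (outC (x a) q b) 0 ∧
    EqvSC (x a).2.1.length (R a) (L a) (K a) (scC (B a) (trC (x a) q b, true) ((t a).getD b 0) ++
      (l a).getD b []) ((l a).getD (outC (x a) q b) [] ++ [(q, true)])) (mp hx) ?_
  refine all_lt (p := fun (a : α × ℕ) b =>
    ltC (B a.1) (trC (x a.1) a.2 b, true) ((t a.1).getD b 0) = (t a.1).getD (outC (x a.1) a.2 b) 0 ∧
    EqvSC (x a.1).2.1.length (R a.1) (L a.1) (K a.1) (scC (B a.1) (trC (x a.1) a.2 b, true)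
      ((t a.1).getD b 0) ++ (l a.1).getD b []) ((l a.1).getD (outC (x a.1) a.2 b) [] ++
      [(a.2, true)])) (Primrec.fst.comp (hx.comp Primrec.fst)) ?_
  have h0 : Primrec fun p : (α × ℕ) × ℕ => p.1.1 := Primrec.fst.comp Primrec.fst
  have hq : Primrec fun p : (α × ℕ) × ℕ => p.1.2 := Primrec.snd.comp Primrec.fst
  have hb : Primrec fun p : (α × ℕ) × ℕ => p.2 := Primrec.snd
  have htr : Primrec fun p : (α × ℕ) × ℕ => ((trC (x p.1.1) p.1.2 p.2, true) : ℕ × Bool) :=
    (trCp (hx.comp h0) hq hb).pair (Primrec.const true)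
  have hou : Primrec fun p : (α × ℕ) × ℕ => outC (x p.1.1) p.1.2 p.2 :=
    outCp (hx.comp h0) hq hb
  have ht1 : Primrec fun p : (α × ℕ) × ℕ => (t p.1.1).getD p.2 0 := getDp 0 (ht.comp h0) hb
  have ht2 : Primrec fun p : (α × ℕ) × ℕ => (t p.1.1).getD (outC (x p.1.1) p.1.2 p.2) 0 :=
    getDp 0 (ht.comp h0) hou
  have hl1 : Primrec fun p : (α × ℕ) × ℕ => (l p.1.1).getD p.2 [] := getDp [] (hl.comp h0) hb
  have hl2 : Primrec fun p : (α × ℕ) × ℕ => (l p.1.1).getD (outC (x p.1.1) p.1.2 p.2) [] :=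
    getDp [] (hl.comp h0) hou
  have hs : Primrec fun p : (α × ℕ) × ℕ => ([(p.1.2, true)] : WC) :=
    Primrec.list_cons.comp (hq.pair (Primrec.const true)) (Primrec.const [])
  exact (eqp (ltCp (hB.comp h0) htr ht1) ht2).and
    (EqvSCp ((mp hx).comp h0) (hR.comp h0) (hL.comp h0) (hK.comp h0)
      (appp (scCp (hB.comp h0) htr ht1) hl1) (appp hl2 hs))

end Main

theorem pchk2 : Pool.Agent.Helper85.LN2.S_PCHK2 := by
  have hx : Primrec fun p : AC × CC2 => p.1 := Primrec.fst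
  have hR : Primrec fun p : AC × CC2 => p.2.1 := Primrec.fst.comp Primrec.snd
  have h2 : Primrec fun p : AC × CC2 => p.2.2 := Primrec.snd.comp Primrec.snd
  have hL : Primrec fun p : AC × CC2 => p.2.2.1 := Primrec.fst.comp h2
  have h3 : Primrec fun p : AC × CC2 => p.2.2.2 := Primrec.snd.comp h2
  have hY : Primrec fun p : AC × CC2 => p.2.2.2.1 := Primrec.fst.comp h3
  have h4 : Primrec fun p : AC × CC2 => p.2.2.2.2 := Primrec.snd.comp h3
  have hk : Primrec fun p : AC × CC2 => p.2.2.2.2.1 := Primrec.fst.comp h4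
  have h5 : Primrec fun p : AC × CC2 => p.2.2.2.2.2 := Primrec.snd.comp h4
  have hB : Primrec fun p : AC × CC2 => p.2.2.2.2.2.1 := Primrec.fst.comp h5
  have h6 : Primrec fun p : AC × CC2 => p.2.2.2.2.2.2 := Primrec.snd.comp h5
  have ht : Primrec fun p : AC × CC2 => p.2.2.2.2.2.2.1 := Primrec.fst.comp h6
  have h7 : Primrec fun p : AC × CC2 => p.2.2.2.2.2.2.2 := Primrec.snd.comp h6
  have hl : Primrec fun p : AC × CC2 => p.2.2.2.2.2.2.2.1 := Primrec.fst.comp h7
  have hK : Primrec fun p : AC × CC2 => p.2.2.2.2.2.2.2.2 := Primrec.snd.comp h7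
  have hm := mp hx
  refine ((Chk1p hx hR hk hB ht hl).and (PrimrecPred.and ?_ ?_)).and
    ((ChkYp hm hR hL hY hK).and
    ((Chk2Sp hm (tabAp hx) (Primrec.fst.comp hx) hR hL hY hK).and
    ((Chk2Sp hm hB hk hR hL hY hK).and (Chk3Sp hx hR hL hB ht hl hK))))
  · exact all_mem (p := fun (a : AC × CC2) s => OkC a.1.2.1.length s) hL
      (OkCp (hm.comp Primrec.fst) Primrec.snd)
  · exact all_mem (p := fun (a : AC × CC2) s => OkC a.1.2.1.length s) hY
      (OkCp (hm.comp Primrec.fst) Primrec.snd)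

end Pool.Agent.Helper40.LN2
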